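import Pool.Agent.Helper89.BC.Stmt

/-!
Zero-cycles on complete intersections in the Tsen-Lang range over a global function field.
-/

open ZC in
/-- Let `k` be a function field of one variable over the finite field `F` and let `X` be the
variety defined in projective `n`-space over `k` by forms of degrees `d i > 0` with
`∑ i, (d i) ^ 2 ≤ n`. Then `X` has a rational point `x`; the Chow group of zero-cycles of `X` is
freely generated by `x`, and the same holds over every completion of `k`; and every family of local
zero-cycle classes `z v` in the limits of `CH0 (X over k_v) / m`, which is orthogonal to the Brauer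
classes of the cyclic algebras given by an element of `k` and a constant extension of `k`, is the
image of the family of global classes `c m • x` for a compatible family of integers `c m`. -/
theorem Pool.Agent.Results.MP_bd895b_nt.CompleteIntersections.result.{u} (F k : Type u) [Field F]
    [Finite F] [Field k] [Algebra F k] (hk : IsCurveField F k) {n r : ℕ} (X : ProjVar k n r)
    (hd : ∀ i, 0 < X.d i) (hn : ∑ i, X.d i ^ 2 ≤ n) :
    ∃ (x : Fin (n + 1) → k) (hx : X.IsPt x), Gen X x hx ∧
      (∀ v : Place F k, Gen (X.map v.emb) (fun i => v.emb (x i)) (isPt_map X v.emb hx)) ∧
      LocGlob F X x hx :=
  main_tsenLang hk X hd hn
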