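import Pool.Agent.Helper89.IX.TowerOn

/-!
# Zero-cycles on families of intersections of hypersurfaces over any base, prime by prime

`k` is a function field of one variable over a finite field, `B` any variety in a product of
projective spaces over `k`, and `X` the variety in `ℙⁿ × B` defined by forms whose degrees `d i > 0`
in the coordinates of `ℙⁿ` satisfy `∑ (d i) ^ 2 ≤ n`.  `Q` is a set of prime numbers at which the
degrees satisfy the condition `LiftAt` (all primes which divide no `d i` do), or `X` has a section
over `B` given by polynomials.  Then the push-forward of zero-cycles from `X` to `B` is surjective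
on Chow groups, and bijective modulo the integers built from the primes in `Q`, over `k` and over
all completions of `k`; a family of zero-cycle classes over the completions, with indices built from
the primes in `Q`, comes from `k` if and only if its push-forward to `B` does; if `B` is itself
obtained from the point by such steps, then the compatible families on `X` that come from `k` are
exactly those orthogonal to the constant Brauer classes; and if `Q` contains all prime numbers, the
push-forward is an isomorphism.
-/

set_option autoImplicit false

namespace Pool.Agent.Results.MP_bd895b_nt.Fibrations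

open ZC ZF

universe u

theorem result {F k : Type u} [Field F] [Finite F] [Field k] [Algebra F k]
    (hk : IsCurveField F k) {V ι R : Type} [Finite V] {p : V → ι} {n r : ℕ}
    (B : MVar k p R) (X : MVar k (addBlock n p) (Fin r ⊕ R)) (Q : ℕ → Prop) (h : FamAt Q X B) :
    PushIsoAt Q h.isOver ∧ (∀ v : Place F k, PushIsoAt Q (h.isOver.bc v.Completion)) ∧
    (∀ z : LocFam F X, z.GlobalOn Q ↔ (z.push h.isOver).GlobalOn Q) ∧
    (TowerAt Q B → ∀ z : LocFam F X, z.CompatOn Q → (z.GlobalOn Q ↔ z.OrthOn Q)) ∧
    ((∀ l : ℕ, l.Prime → Q l) →
      PushIso h.isOver ∧ ∀ v : Place F k, PushIso (h.isOver.bc v.Completion)) :=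
  famAt_main hk B X Q h

end Pool.Agent.Results.MP_bd895b_nt.Fibrations
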