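import Pool.Agent.Helper72.HY.Pres

/-!
# Zero-cycles on families of hypersurfaces, with one projection for each prime

`k` is a function field of one variable over a finite field, `X` a variety in a product of
projective spaces over `k`, and `Q` a set of prime numbers.  For every prime `l` in `Q` the variety
`X` is presented, up to a renumbering, as a family over a variety `B` (which depends on `l`) of
intersections of hypersurfaces in `ℙⁿ`, where one of the following holds: the fibres are
hypersurfaces of a degree `d` not divisible by `l` such that the sum over `0 < j < d` of `j` times
the `l`-part of `j` is less than `n`; or they are cubic hypersurfaces which contain a line given by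
polynomials in the coordinates of `B`, and `l` is odd; or the fibres are in the Tsen-Lang range and
satisfy the condition `LiftAt`, or there is a section given by polynomials.

Then the push-forward from `X` to `B` is an isomorphism on Chow groups of zero-cycles localized at
`l`, over `k` and over its completions; a compatible family of zero-cycle classes over the
completions comes from `k` if and only if, for all `l` in `Q`, its image on `B` does at `l`; and if
the bases `B` are towers of such families, if and only if it is orthogonal to the constant Brauer
classes.
-/

set_option autoImplicit false

namespace Pool.Agent.Results.MP_bd895b_nt.Hypersurfaces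

open ZC ZF

universe u

theorem result {F k : Type u} [Field F] [Finite F] [Field k] [Algebra F k]
    (hk : IsCurveField F k) {V ι R : Type} [Finite V] {p : V → ι} (X : MVar k p R)
    (Q : ℕ → Prop) (P : ∀ l : ℕ, l.Prime → Q l → PresAt l X) :
    (∀ (l : ℕ) (hl : l.Prime) (hQ : Q l), LocIso l (P l hl hQ).step.isOver ∧
      ∀ v : Place F k, LocIso l ((P l hl hQ).step.isOver.bc v.Completion)) ∧
    ∀ z : LocFam F X, z.CompatOn Q →
      (z.GlobalOn Q ↔ ∀ (l : ℕ) (hl : l.Prime) (hQ : Q l),
        ((P l hl hQ).image z).GlobalOn fun l' => l' = l) ∧
      ((∀ (l : ℕ) (hl : l.Prime) (hQ : Q l), TowerFor l (P l hl hQ).base) →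
        (z.GlobalOn Q ↔ z.OrthOn Q)) :=
  presAt_main hk X Q P

end Pool.Agent.Results.MP_bd895b_nt.Hypersurfaces
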