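import Pool.Agent.Helper89.IX.Index

/-!
# Zero-cycles on families of intersections of hypersurfaces over any base: the index

`k` is a function field of one variable over a finite field, `B` any variety in a product of
projective spaces over `k`, and `X` the variety in `ℙⁿ × B` defined by forms of degrees `d i > 0` in
the coordinates of `ℙⁿ`.  If `∑ d i * (d i)_l ≤ n` for the prime `l`, where `(d)_l` is the `l`-part
of `d`, then every zero-cycle class of `B` has a multiple by an integer prime to `l` which comes
from `X`, over `k` and over all completions of `k`; if this inequality holds for every prime `l`,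
then the push-forward of zero-cycle classes from `X` to `B` is surjective over `k` and over all
completions of `k`, and `X` has a zero-cycle of degree `e` if and only if `B` has one.
-/

set_option autoImplicit false

namespace Pool.Agent.Results.MP_bd895b_nt.Index

open ZC ZF

universe u

theorem result {F k : Type u} [Field F] [Finite F] [Field k] [Algebra F k]
    (hk : IsCurveField F k) {V ι R : Type} [Finite V] {p : V → ι} {n r : ℕ}
    (B : MVar k p R) (X : MVar k (addBlock n p) (Fin r ⊕ R)) (h : X.IsOver B)
    (hd : ∀ i, 0 < X.deg (Sum.inl i) none) :
    (∀ l : ℕ, l.Prime → LowAt l n (fun i => X.deg (Sum.inl i) none) →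
      OntoAt l h ∧ ∀ v : Place F k, OntoAt l (h.bc v.Completion)) ∧
    ((∀ l : ℕ, l.Prime → LowAt l n (fun i => X.deg (Sum.inl i) none)) →
      Onto h ∧ (∀ v : Place F k, Onto (h.bc v.Completion)) ∧
      ∀ e : ℤ, HasDeg X e ↔ HasDeg B e) :=
  index_main hk B X h hd

end Pool.Agent.Results.MP_bd895b_nt.Index
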